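import Mathlib

/-!
Dyadic averages for the Fourier decay of the Syracuse law (helper3's sections 3d and 3e).
-/

set_option autoImplicit false

namespace KDF

open Finset

/-- dyadic black: the class of kap mod 2^s has a representative of absolute value below 2^s / 8 -/
def DB (kap : ℤ) (s : ℕ) : Prop := ∃ z : ℤ, 8 * |z| < 2 ^ s ∧ (2 ^ s : ℤ) ∣ z - kap

open Classical in
/-- the limiting product -/
noncomputable def H (c0 : ℝ) (bmax : ℕ) : ℕ → ℤ → ℕ → ℝ
  | 0, _, _ => 1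
  | l + 1, kap, s => ∑ b ∈ Finset.Icc 2 bmax, ((b : ℝ) - 1) * (1 / 2) ^ b *
      (if b = 3 ∧ ¬ DB kap s then 1 - c0 else 1) * H c0 bmax l (9 * kap) (s + b)

theorem P_nonneg {b : ℕ} (hb : 1 ≤ b) : 0 ≤ ((b : ℝ) - 1) * (1 / 2) ^ b := by
  have : (1 : ℝ) ≤ b := by exact_mod_cast hb
  apply mul_nonneg
  · linarith
  · positivity

theorem sum_P (B : ℕ) (hB : 1 ≤ B) :
    ∑ b ∈ Finset.Icc 2 B, ((b : ℝ) - 1) * (1 / 2) ^ b = 1 - ((B : ℝ) + 1) * (1 / 2) ^ B := by
  induction B, hB using Nat.le_induction with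
  | base => norm_num
  | succ B hB ih =>
    rw [Finset.sum_Icc_succ_top (by omega), ih]
    push_cast
    rw [pow_succ]
    ring

theorem sum_P_le (B : ℕ) : ∑ b ∈ Finset.Icc 2 B, ((b : ℝ) - 1) * (1 / 2) ^ b ≤ 1 := by
  rcases Nat.lt_or_ge B 1 with h | h
  · have : B = 0 := by omega
    subst this; simp
  · rw [sum_P B h]
    have : (0 : ℝ) ≤ ((B : ℝ) + 1) * (1 / 2) ^ B := by positivity
    linarith

theorem DB_congr {kap kap' : ℤ} {s : ℕ} (h : (2 ^ s : ℤ) ∣ kap - kap') :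
    DB kap s ↔ DB kap' s := by
  constructor
  · rintro ⟨z, h1, h2⟩
    refine ⟨z, h1, ?_⟩
    have := dvd_add h2 h
    rwa [show z - kap + (kap - kap') = z - kap' by ring] at this
  · rintro ⟨z, h1, h2⟩
    refine ⟨z, h1, ?_⟩
    have := dvd_sub h2 h
    rwa [show z - kap' - (kap - kap') = z - kap by ring] at this

open Classical in
theorem H_nonneg {c0 : ℝ} (hc1 : c0 ≤ 1) (bmax : ℕ) :
    ∀ (l : ℕ) (kap : ℤ) (s : ℕ), 0 ≤ H c0 bmax l kap s
  | 0, _, _ => by simp [H]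
  | l + 1, kap, s => by
    rw [H]
    apply Finset.sum_nonneg
    intro b hb
    rw [Finset.mem_Icc] at hb
    have h2 : (0 : ℝ) ≤ if b = 3 ∧ ¬ DB kap s then 1 - c0 else 1 := by
      split_ifs
      · linarith
      · norm_num
    exact mul_nonneg (mul_nonneg (P_nonneg (by omega)) h2) (H_nonneg hc1 bmax l _ _)

open Classical in
theorem H_succ_le {c0 : ℝ} (hc0 : 0 ≤ c0) (hc1 : c0 ≤ 1) (bmax l : ℕ) (kap : ℤ) (s : ℕ) :
    H c0 bmax (l + 1) kap s ≤
      ∑ b ∈ Finset.Icc 2 bmax, ((b : ℝ) - 1) * (1 / 2) ^ b * H c0 bmax l (9 * kap) (s + b) := by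
  rw [H]
  apply Finset.sum_le_sum
  intro b hb
  rw [Finset.mem_Icc] at hb
  have h1 := P_nonneg (b := b) (by omega)
  have h2 := H_nonneg hc1 bmax l (9 * kap) (s + b)
  have h3 : (if b = 3 ∧ ¬ DB kap s then 1 - c0 else (1 : ℝ)) ≤ 1 := by
    split_ifs
    · linarith
    · norm_num
  apply mul_le_mul_of_nonneg_right _ h2
  calc ((b : ℝ) - 1) * (1 / 2) ^ b * (if b = 3 ∧ ¬ DB kap s then 1 - c0 else 1)
      ≤ ((b : ℝ) - 1) * (1 / 2) ^ b * 1 := mul_le_mul_of_nonneg_left h3 h1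
    _ = _ := mul_one _

theorem H_le_one {c0 : ℝ} (hc0 : 0 ≤ c0) (hc1 : c0 ≤ 1) (bmax : ℕ) :
    ∀ (l : ℕ) (kap : ℤ) (s : ℕ), H c0 bmax l kap s ≤ 1
  | 0, _, _ => by simp [H]
  | l + 1, kap, s => by
    refine (H_succ_le hc0 hc1 bmax l kap s).trans ?_
    calc _ ≤ ∑ b ∈ Finset.Icc 2 bmax, ((b : ℝ) - 1) * (1 / 2) ^ b * 1 := by
          apply Finset.sum_le_sum
          intro b hb
          rw [Finset.mem_Icc] at hb
          exact mul_le_mul_of_nonneg_left (H_le_one hc0 hc1 bmax l _ _) (P_nonneg (by omega))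
      _ ≤ 1 := by simpa using sum_P_le bmax

theorem H_per (c0 : ℝ) (bmax : ℕ) : ∀ (l : ℕ) (kap kap' : ℤ) (s : ℕ),
    (2 ^ (s + l * bmax) : ℤ) ∣ kap - kap' → H c0 bmax l kap s = H c0 bmax l kap' s
  | 0, _, _, _, _ => by simp [H]
  | l + 1, kap, kap', s, h => by
    rw [H, H]
    apply Finset.sum_congr rfl
    intro b hb
    rw [Finset.mem_Icc] at hb
    have h1 : (2 ^ (s + b + l * bmax) : ℤ) ∣ 9 * kap - 9 * kap' := by
      have h2 : (2 ^ (s + b + l * bmax) : ℤ) ∣ 2 ^ (s + (l + 1) * bmax) := by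
        apply pow_dvd_pow
        nlinarith
      rw [← mul_sub]
      exact (h2.trans h).mul_left 9
    rw [H_per c0 bmax l _ _ _ h1]
    have h3 : (2 ^ s : ℤ) ∣ kap - kap' := (pow_dvd_pow 2 (Nat.le_add_right _ _)).trans h
    have h4 := DB_congr h3
    by_cases h5 : DB kap s
    · have h6 := h4.mp h5
      simp [h5, h6]
    · have h6 : ¬ DB kap' s := fun hh => h5 (h4.mpr hh)
      simp [h5, h6]

/-- splitting a range sum -/
theorem sum_range_mul' (f : ℕ → ℝ) (m n : ℕ) :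
    ∑ D ∈ range (m * n), f D = ∑ i ∈ range m, ∑ j ∈ range n, f (i + m * j) := by
  rw [Finset.sum_comm]
  induction n with
  | zero => simp
  | succ n ih =>
    rw [Nat.mul_succ, Finset.sum_range_add, ih, Finset.sum_range_succ]
    congr 1
    apply Finset.sum_congr rfl
    intro i _
    rw [add_comm]

/-- a periodic function: multiplication by an odd number permutes the residues mod 2^e -/
theorem sum_odd_mul (u : ℤ) (hu : Odd u) : ∀ (e : ℕ) (g : ℤ → ℝ),
    (∀ x, g (x + 2 ^ e) = g x) →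
    ∑ D ∈ range (2 ^ e), g (u * (D : ℤ)) = ∑ D ∈ range (2 ^ e), g (D : ℤ)
  | 0, g, _ => by simp
  | e + 1, g, hg => by
    have hper : ∀ (k x : ℤ), g (x + k * 2 ^ (e + 1)) = g x := by
      intro k
      induction k using Int.induction_on with
      | zero => intro x; simp
      | succ k ih =>
        intro x
        rw [add_mul, one_mul, ← add_assoc, hg, ih]
      | pred k ih =>
        intro x
        have := hg (x + (-(k : ℤ) - 1) * 2 ^ (e + 1))
        rw [← this, ← ih x]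
        congr 1
        ring
    have ih := sum_odd_mul u hu e (fun x => g x + g (x + 2 ^ e)) (by
      intro x
      have h1 := hg x
      rw [show x + 2 ^ e + 2 ^ e = x + 2 ^ (e + 1) by ring, h1]
      ring)
    have e1 : ∀ f : ℕ → ℝ, ∑ D ∈ range (2 ^ (e + 1)), f D =
        ∑ D ∈ range (2 ^ e), (f D + f (D + 2 ^ e)) := by
      intro f
      rw [pow_succ, mul_two, Finset.sum_range_add, ← Finset.sum_add_distrib]
      apply Finset.sum_congr rfl
      intro i _
      rw [add_comm (2 ^ e) i]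
    rw [e1, e1]
    have e2 : ∀ D : ℕ, g (u * ((D + 2 ^ e : ℕ) : ℤ)) = g (u * (D : ℤ) + 2 ^ e) := by
      intro D
      obtain ⟨v, rfl⟩ := hu
      push_cast
      rw [show (2 * v + 1) * ((D : ℤ) + 2 ^ e) = ((2 * v + 1) * (D : ℤ) + 2 ^ e) + v * 2 ^ (e + 1) by
        ring]
      exact hper v _
    simp only [e2]
    rw [ih]
    apply Finset.sum_congr rfl
    intro D _
    push_cast
    rfl

theorem nine_pow (q : ℕ) : ∃ m : ℤ, Odd m ∧ (9 : ℤ) ^ (2 ^ q) = 1 + 2 ^ (q + 3) * m := by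
  induction q with
  | zero => exact ⟨1, odd_one, by norm_num⟩
  | succ q ih =>
    obtain ⟨m, hm, h⟩ := ih
    refine ⟨m + 2 * (2 ^ (q + 1) * m ^ 2), ?_, ?_⟩
    · exact hm.add_even (even_two_mul _)
    · rw [pow_succ, pow_mul, h]
      ring

/-- the powers of 9 are equidistributed in 1 + 8Z -/
theorem sum_nine_pow (kap : ℤ) (hk : Odd kap) : ∀ (q : ℕ) (F : ℤ → ℝ),
    (∀ x, F (x + 2 ^ (q + 3)) = F x) →
    ∑ t ∈ range (2 ^ q), F (kap * 9 ^ t) = ∑ D ∈ range (2 ^ q), F (kap + 8 * (D : ℤ))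
  | 0, F, _ => by simp
  | q + 1, F, hF => by
    have hper : ∀ (k x : ℤ), F (x + k * 2 ^ (q + 1 + 3)) = F x := by
      intro k
      induction k using Int.induction_on with
      | zero => intro x; simp
      | succ k ih =>
        intro x
        rw [add_mul, one_mul, ← add_assoc, hF, ih]
      | pred k ih =>
        intro x
        have := hF (x + (-(k : ℤ) - 1) * 2 ^ (q + 1 + 3))
        rw [← this, ← ih x]
        congr 1
        ring
    have ih := sum_nine_pow kap hk q (fun x => F x + F (x + 2 ^ (q + 3))) (by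
      intro x
      have h1 := hF x
      rw [show x + 2 ^ (q + 3) + 2 ^ (q + 3) = x + 2 ^ (q + 1 + 3) by ring, h1]
      ring)
    have e1 : ∀ f : ℕ → ℝ, ∑ D ∈ range (2 ^ (q + 1)), f D =
        ∑ D ∈ range (2 ^ q), (f D + f (D + 2 ^ q)) := by
      intro f
      rw [pow_succ, mul_two, Finset.sum_range_add, ← Finset.sum_add_distrib]
      apply Finset.sum_congr rfl
      intro i _
      rw [add_comm (2 ^ q) i]
    rw [e1, e1]
    obtain ⟨m, hm, h9⟩ := nine_pow q
    have e2 : ∀ t : ℕ, F (kap * 9 ^ (t + 2 ^ q)) = F (kap * 9 ^ t + 2 ^ (q + 3)) := by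
      intro t
      have hodd : Odd (kap * 9 ^ t * m) := (hk.mul (Odd.pow (by decide))).mul hm
      obtain ⟨v, hv⟩ := hodd
      rw [pow_add, h9]
      rw [show kap * (9 ^ t * (1 + 2 ^ (q + 3) * m)) = kap * 9 ^ t + 2 ^ (q + 3) * (kap * 9 ^ t * m) by
        ring, hv]
      rw [show kap * 9 ^ t + 2 ^ (q + 3) * (2 * v + 1) =
        (kap * 9 ^ t + 2 ^ (q + 3)) + v * 2 ^ (q + 1 + 3) by ring]
      exact hper v _
    simp only [e2]
    rw [ih]
    apply Finset.sum_congr rfl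
    intro D _
    push_cast
    rw [show kap + 8 * (D : ℤ) + 2 ^ (q + 3) = kap + 8 * ((D : ℤ) + 2 ^ q) by ring]


open Classical in
/-- at most a quarter of the 2^b equally spaced points is black -/
theorem count_DB (kap : ℤ) (s b : ℕ) (hs : 1 ≤ s) (hb : 2 ≤ b) :
    ((range (2 ^ b)).filter
      (fun D : ℕ => DB (9 * (kap + 2 ^ s * (D : ℤ))) (s + b))).card ≤ 2 ^ (b - 2) := by
  set M : ℤ := 2 ^ (s + b - 3) with hM
  have h8 : (2 : ℤ) ^ (s + b) = 8 * M := by
    rw [hM, show (8 : ℤ) = 2 ^ 3 by norm_num, ← pow_add]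
    congr 1; omega
  have hS : (2 : ℤ) * M = 2 ^ s * 2 ^ (b - 2) := by
    rw [hM, ← pow_add, ← pow_succ']
    congr 1; omega
  have hspos : (0 : ℤ) < 2 ^ s := by positivity
  have hz : ∀ D : ℕ, ∃ z : ℤ, DB (9 * (kap + 2 ^ s * (D : ℤ))) (s + b) →
      (8 * |z| < 2 ^ (s + b) ∧ (2 ^ (s + b) : ℤ) ∣ z - 9 * (kap + 2 ^ s * (D : ℤ))) := by
    intro D
    by_cases h : DB (9 * (kap + 2 ^ s * (D : ℤ))) (s + b)
    · obtain ⟨z, hz⟩ := h
      exact ⟨z, fun _ => hz⟩
    · exact ⟨0, fun h' => absurd h' h⟩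
  choose z hz using hz
  have key : ∀ D ∈ (range (2 ^ b)).filter
      (fun D : ℕ => DB (9 * (kap + 2 ^ s * (D : ℤ))) (s + b)),
      0 < z D + M ∧ z D + M < 2 ^ s * 2 ^ (b - 2) ∧
        (z D + M) % 2 ^ s = (9 * kap + M) % 2 ^ s := by
    intro D hD
    rw [Finset.mem_filter] at hD
    obtain ⟨h1, h2⟩ := hz D hD.2
    rw [h8] at h1
    have h3 := abs_lt.mp (show |z D| < M by linarith)
    refine ⟨by linarith [h3.1], by rw [← hS]; linarith [h3.2], ?_⟩
    rw [← Int.emod_emod_of_dvd _ (dvd_refl _)]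
    apply Int.emod_emod_of_dvd _ (dvd_refl _) |>.trans
    apply Int.ModEq.symm
    rw [Int.modEq_iff_dvd]
    have h4 : (2 ^ s : ℤ) ∣ z D - 9 * (kap + 2 ^ s * (D : ℤ)) :=
      (pow_dvd_pow 2 (Nat.le_add_right _ _)).trans h2
    have h5 : (2 ^ s : ℤ) ∣ 9 * (2 ^ s * (D : ℤ)) := ⟨9 * D, by ring⟩
    have := dvd_add h4 h5
    rwa [show z D - 9 * (kap + 2 ^ s * (D : ℤ)) + 9 * (2 ^ s * (D : ℤ)) =
      z D + M - (9 * kap + M) by ring] at this
  have hcard : (range (2 ^ (b - 2))).card = 2 ^ (b - 2) := Finset.card_range _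
  rw [← hcard]
  apply Finset.card_le_card_of_injOn (fun D => ((z D + M) / 2 ^ s).toNat)
  · intro D hD
    obtain ⟨h1, h2, -⟩ := key D (by simpa using hD)
    rw [Finset.coe_range, Set.mem_Iio]
    have h3 : (z D + M) / 2 ^ s < 2 ^ (b - 2) := by
      apply Int.ediv_lt_of_lt_mul hspos
      rw [mul_comm]; exact h2
    have h4 : 0 ≤ (z D + M) / 2 ^ s := Int.ediv_nonneg h1.le hspos.le
    zify
    rw [Int.toNat_of_nonneg h4]
    exact h3
  · intro D hD D' hD' hDD
    obtain ⟨h1, h2, h3⟩ := key D (by simpa using hD)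
    obtain ⟨h1', h2', h3'⟩ := key D' (by simpa using hD')
    have h4 : 0 ≤ (z D + M) / 2 ^ s := Int.ediv_nonneg h1.le hspos.le
    have h4' : 0 ≤ (z D' + M) / 2 ^ s := Int.ediv_nonneg h1'.le hspos.le
    have h5 : (z D + M) / 2 ^ s = (z D' + M) / 2 ^ s := by
      have : (((z D + M) / 2 ^ s).toNat : ℤ) = (((z D' + M) / 2 ^ s).toNat : ℤ) := by
        exact_mod_cast hDD
      rwa [Int.toNat_of_nonneg h4, Int.toNat_of_nonneg h4'] at this
    have h6 : z D = z D' := by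
      have e1 := Int.emod_add_mul_ediv (z D + M) (2 ^ s)
      have e2 := Int.emod_add_mul_ediv (z D' + M) (2 ^ s)
      rw [h3, h5] at e1
      rw [h3'] at e2
      linarith
    rw [Finset.coe_filter, Set.mem_ofPred_eq, Finset.mem_range] at hD hD'
    obtain ⟨-, h7⟩ := hz D hD.2
    obtain ⟨-, h7'⟩ := hz D' hD'.2
    rw [h6] at h7
    have h8' := dvd_sub h7' h7
    have h9 : (2 ^ (s + b) : ℤ) ∣ 2 ^ s * (9 * ((D : ℤ) - D')) := by
      rw [show z D' - 9 * (kap + 2 ^ s * (D' : ℤ)) - (z D' - 9 * (kap + 2 ^ s * (D : ℤ))) =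
        2 ^ s * (9 * ((D : ℤ) - D')) by ring] at h8'
      exact h8'
    rw [pow_add] at h9
    have h10 : (2 ^ b : ℤ) ∣ 9 * ((D : ℤ) - D') := Int.dvd_of_mul_dvd_mul_left hspos.ne' h9
    have h11 : IsCoprime ((2 : ℤ) ^ b) 9 := by
      apply IsCoprime.pow_left
      exact ⟨-4, 1, by norm_num⟩
    have h12 : (2 ^ b : ℤ) ∣ (D : ℤ) - D' := h11.dvd_of_dvd_mul_left h10
    have h13 := Int.eq_zero_of_abs_lt_dvd h12 (by
      rw [abs_lt]
      have g1 : (D : ℤ) < 2 ^ b := by exact_mod_cast hD.1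
      have g2 : (D' : ℤ) < 2 ^ b := by exact_mod_cast hD'.1
      constructor <;> omega)
    omega

open Classical in
/-- the weight of the next step, summed over the digits -/
theorem sum_w {c0 : ℝ} (hc0 : 0 ≤ c0) (kap : ℤ) (s b b' : ℕ) (hs : 1 ≤ s) (hb : 2 ≤ b) :
    ∑ i ∈ range (2 ^ (b + b')), (if b' = 3 ∧ ¬ DB (9 * (kap + 2 ^ s * (i : ℤ))) (s + b) then
      1 - c0 else (1 : ℝ)) ≤ 2 ^ (b + b') * (if b' = 3 then 1 - 3 * c0 / 4 else 1) := by
  by_cases h3 : b' = 3
  · subst h3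
    rw [if_pos rfl, pow_add, sum_range_mul']
    have e1 : ∀ i ∈ range (2 ^ b), ∑ j ∈ range (2 ^ 3),
        (if 3 = 3 ∧ ¬ DB (9 * (kap + 2 ^ s * ((i + 2 ^ b * j : ℕ) : ℤ))) (s + b) then
          1 - c0 else (1 : ℝ)) =
        8 * (1 - c0) + 8 * c0 * (if DB (9 * (kap + 2 ^ s * (i : ℤ))) (s + b) then 1 else 0) := by
      intro i _
      have e2 : ∀ j : ℕ, DB (9 * (kap + 2 ^ s * ((i + 2 ^ b * j : ℕ) : ℤ))) (s + b) ↔
          DB (9 * (kap + 2 ^ s * (i : ℤ))) (s + b) := by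
        intro j
        apply DB_congr
        refine ⟨9 * j, ?_⟩
        push_cast
        ring
      simp only [e2]
      rw [Finset.sum_const, Finset.card_range]
      by_cases h : DB (9 * (kap + 2 ^ s * (i : ℤ))) (s + b)
      · simp [h]; ring
      · simp [h]
    rw [Finset.sum_congr rfl e1, Finset.sum_add_distrib, Finset.sum_const, Finset.card_range,
      ← Finset.mul_sum, Finset.sum_boole]
    have hc := count_DB kap s b hs hb
    have hc' : (((range (2 ^ b)).filter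
      (fun D : ℕ => DB (9 * (kap + 2 ^ s * (D : ℤ))) (s + b))).card : ℝ) ≤ 2 ^ (b - 2) := by
      exact_mod_cast hc
    have e3 : (2 : ℝ) ^ b = 4 * 2 ^ (b - 2) := by
      rw [show (4 : ℝ) = 2 ^ 2 by norm_num, ← pow_add]
      congr 1; omega
    rw [nsmul_eq_mul, pow_add (2 : ℝ) b 3]
    push_cast
    rw [e3]
    nlinarith [mul_le_mul_of_nonneg_left hc' hc0]
  · simp [h3]

/-- averages over the higher digits -/
theorem H_avg_aux {c0 : ℝ} (hc0 : 0 ≤ c0) (hc1 : c0 ≤ 1) (bmax : ℕ) (hb : 3 ≤ bmax) :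
    ∀ (l : ℕ) (kap : ℤ) (s e : ℕ), 1 ≤ s → l * bmax ≤ e →
    ∑ D ∈ range (2 ^ e), H c0 bmax l (kap + 2 ^ s * (D : ℤ)) s ≤
      2 ^ e * (1 - 3 * c0 / 16) ^ (l / 2)
  | 0, kap, s, e, _, _ => by simp [H]
  | 1, kap, s, e, _, _ => by
    have : ∀ D ∈ range (2 ^ e), H c0 bmax 1 (kap + 2 ^ s * (D : ℤ)) s ≤ 1 :=
      fun D _ => H_le_one hc0 hc1 bmax _ _ _
    refine (Finset.sum_le_sum this).trans ?_
    simp
  | l + 2, kap, s, e, hs, he => by
    classical
    set R : ℝ := (1 - 3 * c0 / 16) ^ (l / 2) with hR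
    have hRnn : 0 ≤ R := by
      rw [hR]; apply pow_nonneg; linarith
    have hl2 : (l + 2) / 2 = l / 2 + 1 := by omega
    rw [hl2, pow_succ, ← hR]
    have inner : ∀ b ∈ Finset.Icc 2 bmax, ∀ b' ∈ Finset.Icc 2 bmax,
        ∑ D ∈ range (2 ^ e),
          (if b' = 3 ∧ ¬ DB (9 * (kap + 2 ^ s * (D : ℤ))) (s + b) then 1 - c0 else 1) *
            H c0 bmax l (9 * (9 * (kap + 2 ^ s * (D : ℤ)))) (s + b + b') ≤
        2 ^ e * R * (if b' = 3 then 1 - 3 * c0 / 4 else 1) := by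
      intro b hb1 b' hb1'
      rw [Finset.mem_Icc] at hb1 hb1'
      have hbb : b + b' + l * bmax ≤ e := by nlinarith
      obtain ⟨e', rfl⟩ : ∃ e', e = (b + b') + e' := ⟨e - (b + b'), by omega⟩
      have he' : l * bmax ≤ e' := by omega
      rw [pow_add 2 (b + b') e', sum_range_mul']
      have step : ∀ i ∈ range (2 ^ (b + b')), ∑ j ∈ range (2 ^ e'),
          (if b' = 3 ∧ ¬ DB (9 * (kap + 2 ^ s * ((i + 2 ^ (b + b') * j : ℕ) : ℤ))) (s + b) then
            1 - c0 else 1) *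
            H c0 bmax l (9 * (9 * (kap + 2 ^ s * ((i + 2 ^ (b + b') * j : ℕ) : ℤ)))) (s + b + b') ≤
          (if b' = 3 ∧ ¬ DB (9 * (kap + 2 ^ s * (i : ℤ))) (s + b) then 1 - c0 else 1) *
            (2 ^ e' * R) := by
        intro i _
        have e2 : ∀ j : ℕ, DB (9 * (kap + 2 ^ s * ((i + 2 ^ (b + b') * j : ℕ) : ℤ))) (s + b) ↔
            DB (9 * (kap + 2 ^ s * (i : ℤ))) (s + b) := by
          intro j
          apply DB_congr
          refine ⟨9 * 2 ^ b' * j, ?_⟩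
          push_cast
          ring
        simp only [e2]
        rw [← Finset.mul_sum]
        apply mul_le_mul_of_nonneg_left
        · set kap2 : ℤ := 81 * (kap + 2 ^ s * (i : ℤ)) with hkap2
          have e3 : ∀ j : ℕ, H c0 bmax l
              (9 * (9 * (kap + 2 ^ s * ((i + 2 ^ (b + b') * j : ℕ) : ℤ)))) (s + b + b') =
              (fun x : ℤ => H c0 bmax l (kap2 + 2 ^ (s + b + b') * x) (s + b + b'))
                (81 * (j : ℤ)) := by
            intro j
            congr 1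
            rw [hkap2]
            push_cast
            ring
          simp only [e3]
          have e4 := sum_odd_mul 81 (by decide) e'
            (fun x : ℤ => H c0 bmax l (kap2 + 2 ^ (s + b + b') * x) (s + b + b')) (by
              intro x
              apply H_per
              have : (2 ^ (s + b + b' + l * bmax) : ℤ) ∣ 2 ^ (s + b + b' + e') :=
                pow_dvd_pow 2 (by omega)
              refine this.trans ⟨1, ?_⟩
              ring)
          have e5 := H_avg_aux hc0 hc1 bmax hb l kap2 (s + b + b') e' (by omega) he'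
          rw [e4]
          exact e5
        · split_ifs
          · linarith
          · norm_num
      refine (Finset.sum_le_sum step).trans ?_
      rw [← Finset.sum_mul]
      have hw := sum_w hc0 kap s b b' hs hb1.1
      calc _ ≤ (2 ^ (b + b') * (if b' = 3 then 1 - 3 * c0 / 4 else 1)) * (2 ^ e' * R) :=
            mul_le_mul_of_nonneg_right hw (by positivity)
        _ = _ := by ring
    have outer : ∀ D ∈ range (2 ^ e), H c0 bmax (l + 2) (kap + 2 ^ s * (D : ℤ)) s ≤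
        ∑ b ∈ Finset.Icc 2 bmax, ((b : ℝ) - 1) * (1 / 2) ^ b *
          ∑ b' ∈ Finset.Icc 2 bmax, ((b' : ℝ) - 1) * (1 / 2) ^ b' *
          ((if b' = 3 ∧ ¬ DB (9 * (kap + 2 ^ s * (D : ℤ))) (s + b) then 1 - c0 else 1) *
            H c0 bmax l (9 * (9 * (kap + 2 ^ s * (D : ℤ)))) (s + b + b')) := by
      intro D _
      refine (H_succ_le hc0 hc1 bmax (l + 1) _ s).trans ?_
      apply le_of_eq
      apply Finset.sum_congr rfl
      intro b _
      congr 1
      rw [H]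
      apply Finset.sum_congr rfl
      intro b' _
      rw [mul_assoc]
    refine (Finset.sum_le_sum outer).trans ?_
    rw [Finset.sum_comm]
    calc _ ≤ ∑ b ∈ Finset.Icc 2 bmax, ((b : ℝ) - 1) * (1 / 2) ^ b *
          ∑ b' ∈ Finset.Icc 2 bmax, ((b' : ℝ) - 1) * (1 / 2) ^ b' *
            (2 ^ e * R * (if b' = 3 then 1 - 3 * c0 / 4 else 1)) := by
          apply Finset.sum_le_sum
          intro b hb1
          rw [← Finset.mul_sum]
          have hb2 := Finset.mem_Icc.mp hb1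
          apply mul_le_mul_of_nonneg_left _ (P_nonneg (by omega))
          rw [Finset.sum_comm]
          apply Finset.sum_le_sum
          intro b' hb1'
          have hb2' := Finset.mem_Icc.mp hb1'
          rw [← Finset.mul_sum]
          exact mul_le_mul_of_nonneg_left (inner b hb1 b' hb1') (P_nonneg (by omega))
      _ = (∑ b ∈ Finset.Icc 2 bmax, ((b : ℝ) - 1) * (1 / 2) ^ b) *
          (2 ^ e * R * ∑ b' ∈ Finset.Icc 2 bmax, ((b' : ℝ) - 1) * (1 / 2) ^ b' *
            (if b' = 3 then 1 - 3 * c0 / 4 else 1)) := by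
          rw [Finset.sum_mul]
          apply Finset.sum_congr rfl
          intro b _
          congr 1
          rw [Finset.mul_sum]
          apply Finset.sum_congr rfl
          intro b' _
          ring
      _ ≤ 1 * (2 ^ e * R * (1 - 3 * c0 / 16)) := by
          have h3mem : (3 : ℕ) ∈ Finset.Icc 2 bmax := by rw [Finset.mem_Icc]; omega
          have hsum : ∑ b' ∈ Finset.Icc 2 bmax, ((b' : ℝ) - 1) * (1 / 2) ^ b' *
              (if b' = 3 then 1 - 3 * c0 / 4 else 1) ≤ 1 - 3 * c0 / 16 := by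
            have h4 := sum_P_le bmax
            rw [← Finset.add_sum_erase _ _ h3mem] at h4 ⊢
            have h5 : ∑ x ∈ (Finset.Icc 2 bmax).erase 3, ((x : ℝ) - 1) * (1 / 2) ^ x *
                (if x = 3 then 1 - 3 * c0 / 4 else 1) =
                ∑ x ∈ (Finset.Icc 2 bmax).erase 3, ((x : ℝ) - 1) * (1 / 2) ^ x := by
              apply Finset.sum_congr rfl
              intro x hx
              rw [if_neg (Finset.ne_of_mem_erase hx), mul_one]
            rw [h5, if_pos rfl]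
            push_cast at h4 ⊢
            norm_num at h4 ⊢
            linarith
          have hsnn : 0 ≤ ∑ b' ∈ Finset.Icc 2 bmax, ((b' : ℝ) - 1) * (1 / 2) ^ b' *
              (if b' = 3 then 1 - 3 * c0 / 4 else 1) := by
            apply Finset.sum_nonneg
            intro b' hb'
            have := Finset.mem_Icc.mp hb'
            apply mul_nonneg (P_nonneg (by omega))
            split_ifs
            · linarith
            · norm_num
          apply mul_le_mul (sum_P_le bmax) _ _ zero_le_one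
          · exact mul_le_mul_of_nonneg_left hsum (by positivity)
          · exact mul_nonneg (by positivity) hsnn
      _ = 2 ^ e * (R * (1 - 3 * c0 / 16)) := by ring

/-- 3e: average over the orbit of kap0 under multiplication by 9 -/
theorem H_avg {c0 : ℝ} (hc0 : 0 ≤ c0) (hc1 : c0 ≤ 1) {bmax : ℕ} (hb : 3 ≤ bmax) {kap0 : ℤ}
    (hk : Odd kap0) {l s q : ℕ} (hs : 3 ≤ s) (hq : s + l * bmax ≤ q + 3) :
    (∑ t ∈ range (2 ^ q), H c0 bmax l (kap0 * 9 ^ t) s) / 2 ^ q ≤
      (1 - 3 * c0 / 16) ^ (l / 2) := by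
  rw [div_le_iff₀ (by positivity)]
  rw [sum_nine_pow kap0 hk q (fun x => H c0 bmax l x s) (by
    intro x
    apply H_per
    have : (2 ^ (s + l * bmax) : ℤ) ∣ 2 ^ (q + 3) := pow_dvd_pow 2 hq
    refine this.trans ⟨1, ?_⟩
    ring)]
  obtain ⟨s', rfl⟩ : ∃ s', s = s' + 3 := ⟨s - 3, by omega⟩
  obtain ⟨e, rfl⟩ : ∃ e, q = s' + e := ⟨q - s', by omega⟩
  have he : l * bmax ≤ e := by omega
  rw [pow_add 2 s' e, sum_range_mul']
  have step : ∀ i ∈ range (2 ^ s'), ∑ j ∈ range (2 ^ e),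
      H c0 bmax l (kap0 + 8 * ((i + 2 ^ s' * j : ℕ) : ℤ)) (s' + 3) ≤
        2 ^ e * (1 - 3 * c0 / 16) ^ (l / 2) := by
    intro i _
    have h := H_avg_aux hc0 hc1 bmax hb l (kap0 + 8 * (i : ℤ)) (s' + 3) e (by omega) he
    refine le_trans (le_of_eq ?_) h
    apply Finset.sum_congr rfl
    intro j _
    congr 1
    push_cast
    ring
  refine (Finset.sum_le_sum step).trans ?_
  rw [Finset.sum_const, Finset.card_range, nsmul_eq_mul]
  push_cast
  rw [pow_add]
  apply le_of_eq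
  ring

/-- 3e with a first incomplete pair (s = 1, 2 allowed) -/
theorem H_avg' {c0 : ℝ} (hc0 : 0 ≤ c0) (hc1 : c0 ≤ 1) {bmax : ℕ} (hb : 3 ≤ bmax) {kap0 : ℤ}
    (hk : Odd kap0) {l s q : ℕ} (hs : 1 ≤ s) (hq : s + (l + 1) * bmax ≤ q + 3) :
    (∑ t ∈ range (2 ^ q), H c0 bmax (l + 1) (kap0 * 9 ^ t) s) / 2 ^ q ≤
      (1 - 3 * c0 / 16) ^ (l / 2) := by
  rw [div_le_iff₀ (by positivity)]
  have h1 : ∀ t ∈ range (2 ^ q), H c0 bmax (l + 1) (kap0 * 9 ^ t) s ≤
      ∑ b ∈ Finset.Icc 2 bmax, ((b : ℝ) - 1) * (1 / 2) ^ b *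
        H c0 bmax l (9 * kap0 * 9 ^ t) (s + b) := by
    intro t _
    refine (H_succ_le hc0 hc1 bmax l _ s).trans (le_of_eq ?_)
    apply Finset.sum_congr rfl
    intro b _
    rw [show 9 * (kap0 * 9 ^ t) = 9 * kap0 * 9 ^ t by ring]
  refine (Finset.sum_le_sum h1).trans ?_
  rw [Finset.sum_comm]
  have hRnn : 0 ≤ (1 - 3 * c0 / 16) ^ (l / 2) := by
    apply pow_nonneg; linarith
  calc _ ≤ ∑ b ∈ Finset.Icc 2 bmax, ((b : ℝ) - 1) * (1 / 2) ^ b *
        ((1 - 3 * c0 / 16) ^ (l / 2) * 2 ^ q) := by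
        apply Finset.sum_le_sum
        intro b hb1
        have hb2 := Finset.mem_Icc.mp hb1
        rw [← Finset.mul_sum]
        apply mul_le_mul_of_nonneg_left _ (P_nonneg (by omega))
        rw [← div_le_iff₀ (by positivity)]
        apply H_avg hc0 hc1 hb (Odd.mul (by decide) hk) (by omega)
        nlinarith
    _ = (∑ b ∈ Finset.Icc 2 bmax, ((b : ℝ) - 1) * (1 / 2) ^ b) *
        ((1 - 3 * c0 / 16) ^ (l / 2) * 2 ^ q) := by rw [Finset.sum_mul]
    _ ≤ 1 * ((1 - 3 * c0 / 16) ^ (l / 2) * 2 ^ q) :=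
        mul_le_mul_of_nonneg_right (sum_P_le bmax) (by positivity)
    _ = _ := one_mul _

/-! ### 3d: binomial mixing -/

/-- lazy step -/
noncomputable def E (Φ : ℕ → ℝ) : ℕ → ℕ → ℝ
  | 0, x => Φ x
  | V + 1, x => (E Φ V x + E Φ V (x + 1)) / 2

theorem E_eq (Φ : ℕ → ℝ) (W : ℕ) : ∀ (V x : ℕ), E Φ (W + V) x =
    ∑ n ∈ range (V + 1), (V.choose n : ℝ) * (1 / 2) ^ V * E Φ W (x + n)
  | 0, x => by simp
  | V + 1, x => by
    rw [← add_assoc, E, E_eq Φ W V x, E_eq Φ W V (x + 1)]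
    rw [Finset.sum_range_succ' (fun n => ((V + 1).choose n : ℝ) * (1 / 2) ^ (V + 1) *
      E Φ W (x + n)) (V + 1)]
    have e1 : ∀ n ∈ range (V + 1), ((V + 1).choose (n + 1) : ℝ) * (1 / 2) ^ (V + 1) *
        E Φ W (x + (n + 1)) =
        (1 / 2) * ((V.choose n : ℝ) * (1 / 2) ^ V * E Φ W (x + 1 + n)) +
        (1 / 2) * ((V.choose (n + 1) : ℝ) * (1 / 2) ^ V * E Φ W (x + (n + 1))) := by
      intro n _
      rw [Nat.choose_succ_succ, show x + 1 + n = x + (n + 1) by ring]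
      push_cast
      rw [pow_succ]
      ring
    rw [Finset.sum_congr rfl e1, Finset.sum_add_distrib, ← Finset.mul_sum, ← Finset.mul_sum]
    have e2 : ∑ n ∈ range (V + 1), (V.choose (n + 1) : ℝ) * (1 / 2) ^ V * E Φ W (x + (n + 1)) +
        (V.choose 0 : ℝ) * (1 / 2) ^ V * E Φ W (x + 0) =
        ∑ n ∈ range (V + 1), (V.choose n : ℝ) * (1 / 2) ^ V * E Φ W (x + n) := by
      rw [← Finset.sum_range_succ' (fun n => (V.choose n : ℝ) * (1 / 2) ^ V *
        E Φ W (x + n)) (V + 1), Finset.sum_range_succ _ (V + 1)]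
      simp
    rw [← e2]
    simp only [Nat.choose_zero_right, Nat.cast_one, one_mul, add_zero]
    rw [pow_succ]
    ring

theorem E_per {Φ : ℕ → ℝ} {Q : ℕ} (h : ∀ n, Φ (n + Q) = Φ n) : ∀ (V x : ℕ),
    E Φ V (x + Q) = E Φ V x
  | 0, x => by simp [E, h]
  | V + 1, x => by
    rw [E, E, E_per h V x, show x + Q + 1 = x + 1 + Q by ring, E_per h V (x + 1)]

theorem sum_shift {g : ℕ → ℝ} {Q : ℕ} (h : ∀ n, g (n + Q) = g n) (x : ℕ) :
    ∑ n ∈ range Q, g (x + n) = ∑ n ∈ range Q, g n := by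
  induction x with
  | zero => simp
  | succ x ih =>
    rw [← ih]
    have e1 := Finset.sum_range_succ (fun n => g (x + n)) Q
    have e2 := Finset.sum_range_succ' (fun n => g (x + n)) Q
    have e3 : ∑ n ∈ range Q, g (x + 1 + n) = ∑ n ∈ range Q, g (x + (n + 1)) := by
      apply Finset.sum_congr rfl
      intro n _
      congr 1
      ring
    have e4 : g (x + Q) = g (x + 0) := h x
    rw [e3]
    linarith

theorem E_sum {Φ : ℕ → ℝ} {Q : ℕ} (h : ∀ n, Φ (n + Q) = Φ n) : ∀ V : ℕ,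
    ∑ n ∈ range Q, E Φ V n = ∑ n ∈ range Q, Φ n
  | 0 => by simp [E]
  | V + 1 => by
    have ih := E_sum h V
    have h2 := sum_shift (g := E Φ V) (fun n => E_per h V n) 1
    have h3 : ∑ n ∈ range Q, E Φ (V + 1) n =
        (∑ n ∈ range Q, E Φ V n + ∑ n ∈ range Q, E Φ V (n + 1)) / 2 := by
      rw [← Finset.sum_add_distrib, Finset.sum_div]
      rfl
    have h4 : ∑ n ∈ range Q, E Φ V (n + 1) = ∑ n ∈ range Q, E Φ V (1 + n) := by
      apply Finset.sum_congr rfl
      intro n _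
      rw [add_comm]
    rw [h3, h4, h2, ih]
    ring

theorem sum_binom (Q : ℕ) : ∑ n ∈ range (Q + 1), (Q.choose n : ℝ) * (1 / 2) ^ Q = 1 := by
  rw [← Finset.sum_mul]
  have h := Nat.sum_range_choose Q
  have h' : (∑ n ∈ range (Q + 1), (Q.choose n : ℝ)) = 2 ^ Q := by exact_mod_cast h
  rw [h', ← mul_pow]
  norm_num

theorem E_contract {Φ : ℕ → ℝ} {Q : ℕ} (hQ : 1 ≤ Q) (h : ∀ n, Φ (n + Q) = Φ n) (V : ℕ)
    (a K : ℝ) (ha : a = (∑ n ∈ range Q, Φ n) / Q) (hK : ∀ x, E Φ V x ≤ a + K) (x : ℕ) :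
    E Φ (V + Q) x ≤ a + (1 - Q / 2 ^ Q) * K := by
  rw [E_eq Φ V Q x]
  have hQ0 : (0 : ℝ) < Q := by exact_mod_cast hQ
  have h1 : ∑ n ∈ range Q, (a + K - E Φ V (x + n)) = Q * K := by
    rw [Finset.sum_sub_distrib, sum_shift (fun n => E_per h V n) x, E_sum h V, Finset.sum_const,
      Finset.card_range, nsmul_eq_mul]
    have : ∑ n ∈ range Q, Φ n = Q * a := by
      rw [ha]; field_simp
    rw [this]
    ring
  have h2 : ∑ n ∈ range Q, (1 / 2 : ℝ) ^ Q * (a + K - E Φ V (x + n)) ≤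
      ∑ n ∈ range (Q + 1), (Q.choose n : ℝ) * (1 / 2) ^ Q * (a + K - E Φ V (x + n)) := by
    calc _ ≤ ∑ n ∈ range Q, (Q.choose n : ℝ) * (1 / 2) ^ Q * (a + K - E Φ V (x + n)) := by
          apply Finset.sum_le_sum
          intro n hn
          rw [Finset.mem_range] at hn
          apply mul_le_mul_of_nonneg_right _ (by linarith [hK (x + n)])
          have : (1 : ℝ) ≤ Q.choose n := by
            exact_mod_cast Nat.choose_pos hn.le
          have h5 : (0 : ℝ) ≤ (1 / 2) ^ Q := by positivity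
          nlinarith
      _ ≤ _ := by
          apply Finset.sum_le_sum_of_subset_of_nonneg
          · intro n hn
            rw [Finset.mem_range] at hn ⊢
            omega
          · intro n _ _
            apply mul_nonneg (by positivity) (by linarith [hK (x + n)])
  rw [← Finset.mul_sum, h1] at h2
  have h3 : ∑ n ∈ range (Q + 1), (Q.choose n : ℝ) * (1 / 2) ^ Q * (a + K - E Φ V (x + n)) =
      (a + K) - ∑ n ∈ range (Q + 1), (Q.choose n : ℝ) * (1 / 2) ^ Q * E Φ V (x + n) := by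
    have e1 : ∀ n ∈ range (Q + 1), (Q.choose n : ℝ) * (1 / 2) ^ Q * (a + K - E Φ V (x + n)) =
        (Q.choose n : ℝ) * (1 / 2) ^ Q * (a + K) -
        (Q.choose n : ℝ) * (1 / 2) ^ Q * E Φ V (x + n) := by
      intro n _
      ring
    rw [Finset.sum_congr rfl e1, Finset.sum_sub_distrib, ← Finset.sum_mul, sum_binom, one_mul]
  rw [h3] at h2
  have h4 : (1 / 2 : ℝ) ^ Q * (Q * K) = Q / 2 ^ Q * K := by
    rw [one_div, inv_pow]
    ring
  rw [h4] at h2
  linarith

/-- 3d: the binomial law mixes modulo Q -/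
theorem binom_mix {Q : ℕ} (hQ : 1 ≤ Q) {Φ : ℕ → ℝ} (h : ∀ n, Φ (n + Q) = Φ n) {M : ℝ}
    (h0 : ∀ n, 0 ≤ Φ n) (hM : ∀ n, Φ n ≤ M) (V : ℕ) :
    ∑ n ∈ range (V + 1), (V.choose n : ℝ) * (1 / 2) ^ V * Φ n ≤
      (∑ n ∈ range Q, Φ n) / Q + (1 - (Q : ℝ) / 2 ^ Q) ^ (V / Q) * M := by
  have hle : ∀ V x, E Φ V x ≤ M := by
    intro V
    induction V with
    | zero => intro x; exact hM x
    | succ V ih =>
      intro x
      rw [E]
      linarith [ih x, ih (x + 1)]
  set a := (∑ n ∈ range Q, Φ n) / Q with ha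
  have ha0 : 0 ≤ a := div_nonneg (Finset.sum_nonneg fun n _ => h0 n) (by positivity)
  have key : ∀ k r x : ℕ, E Φ (r + k * Q) x ≤ a + (1 - (Q : ℝ) / 2 ^ Q) ^ k * M := by
    intro k r
    induction k with
    | zero =>
      intro x
      simp only [zero_mul, add_zero, pow_zero, one_mul]
      linarith [hle r x]
    | succ k ih =>
      intro x
      have := E_contract hQ h (r + k * Q) a _ ha ih x
      rw [show r + (k + 1) * Q = r + k * Q + Q by ring]
      refine this.trans (le_of_eq ?_)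
      rw [pow_succ]
      ring
  have h1 := E_eq Φ 0 V 0
  simp only [zero_add] at h1
  have h2 : ∀ n, E Φ 0 n = Φ n := fun n => rfl
  simp only [h2] at h1
  rw [← h1]
  have h3 := key (V / Q) (V % Q) 0
  rwa [show V % Q + V / Q * Q = V by rw [mul_comm]; exact Nat.mod_add_div V Q] at h3

end KDF
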