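import Pool.Agent.Lib.KD41.W0

set_option autoImplicit false

namespace Pool.Agent.Lib.KD41

open Finset

theorem pow3_odd (k : ℕ) : Odd ((3 : ℤ) ^ k) := Odd.pow (by decide)

theorem white_next {u0 u u' : ℤ} {r j l d1 : ℕ} (hr : 2 * j + 2 ≤ r)
    (h1 : 100 * |u| < 3 ^ (r - 2 * j)) (h2 : (3 : ℤ) ^ (r - 2 * j) ∣ 2 ^ l * u - u0)
    (hu : u = 2 ^ d1 * u') (hodd : Odd u') :
    ¬ Black u0 r (j + 1) (l + max 2 (d1 + 1)) := by
  rintro ⟨v, hv1, hv2⟩
  set Q : ℤ := 3 ^ (r - 2 * (j + 1)) with hQ
  have hQpos : 0 < Q := by positivity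
  have hQodd : Odd Q := pow3_odd _
  have e9 : (3 : ℤ) ^ (r - 2 * j) = 9 * Q := by
    rw [hQ, show r - 2 * j = (r - 2 * (j + 1)) + 2 by omega, pow_add]
    ring
  rw [e9] at h1 h2
  have hd : Q ∣ 2 ^ l * u - u0 := (Dvd.intro_left 9 rfl).trans h2
  have hd2 : Q ∣ 2 ^ l * (2 ^ (max 2 (d1 + 1)) * v - u) := by
    have := dvd_sub hv2 hd
    have e2 : (2 ^ (l + max 2 (d1 + 1)) * v - u0) - (2 ^ l * u - u0) =
      2 ^ l * (2 ^ (max 2 (d1 + 1)) * v - u) := by ring
    rwa [e2] at this
  rw [hQ, pow3_dvd_two_pow_mul_iff, ← hQ] at hd2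
  rcases Nat.eq_zero_or_pos d1 with h0 | h0
  · subst h0
    simp only [pow_zero, one_mul] at hu
    subst hu
    norm_num at hd2
    obtain ⟨z, hz⟩ := hd2
    have hzodd : Odd z := by
      have : Odd (Q * z) := by
        rw [← hz]
        obtain ⟨w, hw⟩ := hodd
        exact ⟨2 * v - w - 1, by rw [hw]; ring⟩
      exact (Int.odd_mul.mp this).2
    have hz1 : 1 ≤ |z| := Int.one_le_abs (by rintro rfl; simp at hzodd)
    have h3 : Q * |z| ≤ 4 * |v| + |u| := by
      have : |Q * z| = |4 * v - u| := by rw [← hz]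
      rw [abs_mul, abs_of_pos hQpos] at this
      rw [this]
      calc |4 * v - u| ≤ |4 * v| + |u| := abs_sub _ _
        _ = _ := by rw [abs_mul]; norm_num
    nlinarith [abs_nonneg v, abs_nonneg u]
  · have hm : max 2 (d1 + 1) = d1 + 1 := by omega
    rw [hm, hu] at hd2
    have e3 : (2 : ℤ) ^ (d1 + 1) * v - 2 ^ d1 * u' = 2 ^ d1 * (2 * v - u') := by ring
    rw [e3, hQ, pow3_dvd_two_pow_mul_iff, ← hQ] at hd2
    obtain ⟨z, hz⟩ := hd2
    have hzodd : Odd z := by
      have : Odd (Q * z) := by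
        rw [← hz]
        obtain ⟨w, hw⟩ := hodd
        exact ⟨v - w - 1, by rw [hw]; ring⟩
      exact (Int.odd_mul.mp this).2
    have hz1 : 1 ≤ |z| := Int.one_le_abs (by rintro rfl; simp at hzodd)
    have h3 : Q * |z| ≤ 2 * |v| + |u'| := by
      have : |Q * z| = |2 * v - u'| := by rw [← hz]
      rw [abs_mul, abs_of_pos hQpos] at this
      rw [this]
      calc |2 * v - u'| ≤ |2 * v| + |u'| := abs_sub _ _
        _ = _ := by rw [abs_mul]; norm_num
    have h4 : 2 * |u'| ≤ |u| := by
      rw [hu, abs_mul, abs_of_pos (by positivity : (0 : ℤ) < 2 ^ d1)]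
      apply mul_le_mul_of_nonneg_right _ (abs_nonneg _)
      calc (2 : ℤ) = 2 ^ 1 := by norm_num
        _ ≤ 2 ^ d1 := pow_le_pow_right₀ (by norm_num) h0
    nlinarith [abs_nonneg v, abs_nonneg u', abs_nonneg u]

theorem sum_star (B bs : ℕ) (c : ℝ) (hc0 : 0 ≤ c) (hc1 : c ≤ 1) (hbs : 2 ≤ bs) :
    ∑ b ∈ Finset.Icc 2 B, Pb b * (1 - if b = bs then c else 0) ≤ 1 - c * Pb bs := by
  have hP := Pb_nonneg (b := bs) (by omega)
  by_cases h : bs ≤ B
  · have h3 : bs ∈ Finset.Icc 2 B := by rw [Finset.mem_Icc]; omega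
    have e : ∑ b ∈ Finset.Icc 2 B, Pb b * (1 - if b = bs then c else 0) =
        ∑ b ∈ Finset.Icc 2 B, Pb b - c * Pb bs := by
      have : ∀ b, Pb b * (1 - if b = bs then c else 0) = Pb b - (if b = bs then c * Pb bs else 0) := by
        intro b
        split_ifs with h
        · subst h; ring
        · ring
      simp only [this, Finset.sum_sub_distrib, Finset.sum_ite_eq', h3, if_true]
    rw [e]
    linarith [sum_Pb_le B]
  · have e : ∑ b ∈ Finset.Icc 2 B, Pb b * (1 - if b = bs then c else 0) =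
        ∑ b ∈ Finset.Icc 2 B, Pb b := by
      apply Finset.sum_congr rfl
      intro b hb
      rw [Finset.mem_Icc] at hb
      have : b ≠ bs := by omega
      simp [this]
    rw [e]
    have h2 : ∑ b ∈ Finset.Icc 2 B, Pb b + Pb bs ≤ ∑ b ∈ Finset.Icc 2 bs, Pb b := by
      have hn : bs ∉ Finset.Icc 2 B := by rw [Finset.mem_Icc]; omega
      rw [add_comm, ← Finset.sum_insert hn]
      apply Finset.sum_le_sum_of_subset_of_nonneg
      · intro x hx
        rw [Finset.mem_insert, Finset.mem_Icc] at hx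
        rw [Finset.mem_Icc]
        omega
      · intro b hb _
        rw [Finset.mem_Icc] at hb
        exact Pb_nonneg (by omega)
    have h4 := sum_Pb_le bs
    nlinarith

theorem avg_bound (B bs : ℕ) (c M E : ℝ) (g : ℕ → ℝ) (hc0 : 0 ≤ c) (hc1 : c ≤ 1) (hM : 0 ≤ M)
    (hE : 0 ≤ E) (hbs : 2 ≤ bs)
    (hg : ∀ b ∈ Finset.Icc 2 B, g b ≤ (1 - if b = bs then c else 0) * M + (3 / 2 : ℝ) ^ b * E) :
    ∑ b ∈ Finset.Icc 2 B, Pb b * g b ≤ (1 - c * Pb bs) * M + 9 * E := by
  calc _ ≤ ∑ b ∈ Finset.Icc 2 B, (Pb b * (1 - if b = bs then c else 0) * M +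
        Pb b * (3 / 2 : ℝ) ^ b * E) := by
        apply Finset.sum_le_sum
        intro b hb
        have h1 := hg b hb
        rw [Finset.mem_Icc] at hb
        have := mul_le_mul_of_nonneg_left h1 (Pb_nonneg (b := b) (by omega))
        refine this.trans (le_of_eq ?_)
        ring
    _ = (∑ b ∈ Finset.Icc 2 B, Pb b * (1 - if b = bs then c else 0)) * M +
        (∑ b ∈ Finset.Icc 2 B, Pb b * (3 / 2 : ℝ) ^ b) * E := by
        rw [Finset.sum_add_distrib, Finset.sum_mul, Finset.sum_mul]
    _ ≤ _ := by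
        have h1 := mul_le_mul_of_nonneg_right (sum_star B bs c hc0 hc1 hbs) hM
        have h2 := mul_le_mul_of_nonneg_right (sum_Pb_w_le B) hE
        linarith

open Classical in
theorem white_step {u0 : ℤ} {r B n j l : ℕ} {M E : ℝ} (hM : 0 ≤ M) (hE : 0 ≤ E)
    (hw : ¬ Black u0 r j l)
    (hg : ∀ b ∈ Finset.Icc 2 B, G u0 r B n (j + 1) (l + b) ≤ M + (3 / 2 : ℝ) ^ b * E) :
    G u0 r B (n + 1) j l ≤ (1 - c0 / 4) * M + 9 * E := by
  have e1 : Pb 3 = 1 / 4 := by unfold Pb; norm_num
  have hc0 := c0_pos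
  have hc1 := c0_lt_one
  have h := avg_bound B 3 c0 M E
    (fun b => (1 - if b = 3 then c0 else 0) * G u0 r B n (j + 1) (l + b))
    c0_pos.le c0_lt_one.le hM hE (by norm_num) ?_
  · rw [e1] at h
    rw [G]
    refine le_trans (le_of_eq ?_) (h.trans (le_of_eq ?_))
    · apply Finset.sum_congr rfl
      intro b _
      by_cases hb : b = 3
      · simp [hb, hw]; ring
      · simp [hb]
    · ring
  · intro b hb
    have h2 := hg b hb
    have h3 : 0 ≤ (3 / 2 : ℝ) ^ b * E := by positivity

    split_ifs with h4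
    · nlinarith
    · linarith

/-- Lemma W -/
theorem lemW {h : ℕ} {q : ℝ} (hS : S h q) (hq : 0 ≤ q) {B : ℕ} (hB : 4 ≤ B) {u0 : ℤ}
    (hu0 : ¬ (3 : ℤ) ∣ u0) (r X : ℕ) :
    ∀ t n j l : ℕ, 2 * t ≤ n → 2 * j + 2 * n + 1 ≤ r →
      (∀ i : ℕ, i ≤ 2 * t → ∀ l' : ℕ, l ≤ l' → l' ≤ X → ∀ (u : ℤ) (d' : ℕ),
        100 * |u| < 3 ^ (r - 2 * (j + i)) → (3 : ℤ) ^ (r - 2 * (j + i)) ∣ 2 ^ l' * u - u0 →
        (2 : ℤ) ^ d' ∣ u → 3 * d' + 10 * i ≤ 10 * n) →
      G u0 r B n j l ≤ max q ((1 - c0 / 4 * (1 / 2) ^ (h + 1)) ^ t) +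
        (3 / 2 : ℝ) ^ ((l : ℤ) - (X : ℤ)) * 9 ^ (2 * t) := by
  have hc0 := c0_pos
  have hc1 := c0_lt_one
  set p : ℝ := c0 / 4 * (1 / 2) ^ (h + 1) with hp
  have hhalf : (1 / 2 : ℝ) ^ (h + 1) ≤ 1 / 2 := by
    calc (1 / 2 : ℝ) ^ (h + 1) ≤ (1 / 2) ^ 1 :=
          pow_le_pow_of_le_one (by norm_num) (by norm_num) (by omega)
      _ = 1 / 2 := by norm_num
  have hhalf0 : (0 : ℝ) < (1 / 2 : ℝ) ^ (h + 1) := by positivity
  have hp0 : 0 < p := by positivity
  have hp1 : p ≤ c0 / 4 := by nlinarith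
  intro t
  induction t with
  | zero =>
    intro n j l _ _ _
    have h1 := G_le_one u0 r B n j l
    have h2 : (0 : ℝ) ≤ (3 / 2 : ℝ) ^ ((l : ℤ) - (X : ℤ)) * 9 ^ (2 * 0) := by positivity
    have h3 : (1 : ℝ) ≤ max q ((1 - p) ^ 0) := by simp
    linarith
  | succ t ih =>
    intro n j l hn hr hyp
    set M : ℝ := max q ((1 - p) ^ t) with hM
    have hM0 : 0 ≤ M := le_max_of_le_left hq
    have hMstep : (1 - p) * M ≤ max q ((1 - p) ^ (t + 1)) := by
      have h1p : 0 ≤ 1 - p := by nlinarith
      rcases le_total q ((1 - p) ^ t) with h1 | h1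
      · rw [hM, max_eq_right h1]
        refine le_trans (le_of_eq ?_) (le_max_right _ _)
        rw [pow_succ]; ring
      · rw [hM, max_eq_left h1]
        refine le_trans ?_ (le_max_left _ _)
        nlinarith
    set E : ℕ → ℝ := fun l => (3 / 2 : ℝ) ^ ((l : ℤ) - (X : ℤ)) * 9 ^ (2 * t) with hE
    have hE0 : ∀ l, 0 ≤ E l := fun l => by simp only [hE]; positivity
    have hEadd : ∀ l b, E (l + b) = (3 / 2 : ℝ) ^ b * E l := by
      intro l b
      simp only [hE]
      have e5 : (3 / 2 : ℝ) ^ (((l + b : ℕ) : ℤ) - (X : ℤ)) =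
          (3 / 2 : ℝ) ^ b * (3 / 2 : ℝ) ^ ((l : ℤ) - (X : ℤ)) := by
        rw [show (((l + b : ℕ) : ℤ) - (X : ℤ)) = (b : ℤ) + ((l : ℤ) - X) by push_cast; ring,
          zpow_add₀ (by norm_num), zpow_natCast]
      rw [e5, mul_assoc]
    have hE2 : (3 / 2 : ℝ) ^ ((l : ℤ) - (X : ℤ)) * 9 ^ (2 * (t + 1)) = 81 * E l := by
      simp only [hE]
      rw [show 2 * (t + 1) = 2 * t + 2 by ring, pow_add]
      ring
    rw [hE2]
    -- bounds for later points
    have hnext : ∀ (n' i0 l0 : ℕ), 1 ≤ i0 → i0 ≤ 2 → n' + i0 = n → l ≤ l0 →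
        G u0 r B n' (j + i0) l0 ≤ M + E l0 := by
      intro n' i0 l0 h1 h2 h3 h4
      apply ih n' (j + i0) l0 (by omega) (by omega)
      intro i hi l' hl' hlX u d' hu1 hu2 hu3
      have e : r - 2 * (j + i0 + i) = r - 2 * (j + (i0 + i)) := by omega
      rw [e] at hu1 hu2
      have := hyp (i0 + i) (by omega) l' (by omega) hlX u d' hu1 hu2 hu3
      omega
    rcases Nat.lt_or_ge X l with hXl | hXl
    · have h1 := G_le_one u0 r B n j l
      have h2 : (1 : ℝ) ≤ 81 * E l := by
        have h3 : (1 : ℝ) ≤ (3 / 2 : ℝ) ^ ((l : ℤ) - (X : ℤ)) := by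
          apply one_le_zpow₀ (by norm_num)
          omega
        have h4 : (1 : ℝ) ≤ 9 ^ (2 * t) := one_le_pow₀ (by norm_num)
        simp only [hE]
        nlinarith
      have h5 : 0 ≤ max q ((1 - p) ^ (t + 1)) := le_max_of_le_left hq
      linarith
    · obtain ⟨n1, rfl⟩ : ∃ n1, n = n1 + 1 := ⟨n - 1, by omega⟩
      by_cases hbl : Black u0 r j l
      · obtain ⟨u, hu1, hu2⟩ := hbl
        have hr1 : 1 ≤ r - 2 * j := by omega
        have hu3 : ¬ (3 : ℤ) ∣ u := by
          intro h3
          apply hu0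
          have h4 : (3 : ℤ) ∣ 2 ^ l * u - u0 := (dvd_pow_self 3 (by omega)).trans hu2
          have h5 : (3 : ℤ) ∣ 2 ^ l * u := h3.mul_left _
          have := dvd_sub h5 h4
          simpa using this
        have hune : u ≠ 0 := by rintro rfl; simp at hu3
        -- write u = 2^d1 * u'
        obtain ⟨d1, u', hu', hfac⟩ : ∃ (d1 : ℕ) (u' : ℤ), ¬ (2 : ℤ) ∣ u' ∧ u = 2 ^ d1 * u' := by
          obtain ⟨d1, u', h6, h7⟩ := WfDvdMonoid.max_power_factor (a₀ := u) (x := (2 : ℤ)) hune
            Int.prime_two.irreducible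
          exact ⟨d1, u', h6, h7⟩
        have hodd : Odd u' := by
          rw [← Int.not_even_iff_odd, even_iff_two_dvd]
          exact hu'
        by_cases hdh : h ≤ d1
        · -- case (i)
          have h8 := G_shift (B := B) hu2 (n1 + 1)
          rw [h8]
          have h9 : G u (r - 2 * j) B (n1 + 1) 0 0 ≤ q := by
            apply hS B hB u u' d1 (n1 + 1) (r - 2 * j) hfac hodd
            · intro h3
              exact hu3 (by rw [hfac]; exact h3.mul_left _)
            · exact hu1
            · exact hdh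
            · have := hyp 0 (by omega) l le_rfl hXl u d1 (by simpa using hu1)
                (by simpa using hu2) ⟨u', hfac⟩
              omega
            · omega
          have h10 : 0 ≤ 81 * E l := by have := hE0 l; linarith
          have h11 := le_max_left q ((1 - p) ^ (t + 1))
          linarith
        · -- case (iii)
          obtain ⟨n2, rfl⟩ : ∃ n2, n1 = n2 + 1 := ⟨n1 - 1, by omega⟩
          set bs := max 2 (d1 + 1) with hbs
          have hw := white_next (by omega : 2 * j + 2 ≤ r) hu1 hu2 hfac hodd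
          rw [← hbs] at hw
          have hP : (1 / 2 : ℝ) ^ (h + 1) ≤ Pb bs := by
            rcases Nat.eq_zero_or_pos d1 with h0 | h0
            · have : bs = 2 := by omega
              rw [this]
              have : Pb 2 = 1 / 4 := by unfold Pb; norm_num
              rw [this]
              calc (1 / 2 : ℝ) ^ (h + 1) ≤ (1 / 2) ^ 2 :=
                    pow_le_pow_of_le_one (by norm_num) (by norm_num) (by omega)
                _ = 1 / 4 := by norm_num
            · have : bs = d1 + 1 := by omega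
              rw [this]
              unfold Pb
              push_cast
              calc (1 / 2 : ℝ) ^ (h + 1) ≤ (1 / 2) ^ (d1 + 1) :=
                    pow_le_pow_of_le_one (by norm_num) (by norm_num) (by omega)
                _ = 1 / 2 ^ (d1 + 1) := by rw [one_div_pow]
                _ ≤ _ := by
                  apply div_le_div_of_nonneg_right _ (by positivity)
                  have : (1 : ℝ) ≤ d1 := by exact_mod_cast h0
                  linarith
          refine (G_succ_le u0 r B (n2 + 1) j l).trans ?_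
          have h12 := avg_bound B bs (c0 / 4) M (9 * E l)
            (fun b => G u0 r B (n2 + 1) (j + 1) (l + b)) (by linarith) (by linarith) hM0
            (by have := hE0 l; linarith) (by omega) ?_
          · refine h12.trans ?_
            have h13 : (1 - c0 / 4 * Pb bs) * M ≤ (1 - p) * M := by
              apply mul_le_mul_of_nonneg_right _ hM0
              rw [hp]
              nlinarith
            linarith
          · intro b hb
            by_cases hbb : b = bs
            · rw [if_pos hbb, hbb]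
              have h14 := white_step (B := B) (n := n2) (j := j + 1) (l := l + bs) (M := M)
                (E := E (l + bs)) hM0 (hE0 _) hw ?_
              · rw [hEadd] at h14
                linarith
              · intro b' _
                have := hnext n2 2 (l + bs + b') (by omega) le_rfl (by omega) (by omega)
                rw [hEadd (l + bs) b'] at this
                exact this
            · rw [if_neg hbb]
              have := hnext (n2 + 1) 1 (l + b) le_rfl (by omega) (by omega) (by omega)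
              rw [hEadd] at this
              have h15 : 0 ≤ (3 / 2 : ℝ) ^ b * E l := mul_nonneg (by positivity) (hE0 l)
              linarith
      · -- case (ii)
        have h14 := white_step (B := B) (n := n1) (j := j) (l := l) (M := M)
          (E := E l) hM0 (hE0 _) hbl ?_
        · have h15 : (1 - c0 / 4) * M ≤ (1 - p) * M := by
            apply mul_le_mul_of_nonneg_right _ hM0
            linarith
          have := hE0 l
          linarith
        · intro b' _
          have := hnext n1 1 (l + b') le_rfl (by omega) (by omega) (by omega)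
          rw [hEadd] at this
          exact this

end Pool.Agent.Lib.KD41
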